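import Pool.Agent.helper13.U4.SpecY

/-!
# u4:EZR
-/

set_option autoImplicit false

namespace Pool.Agent.U4

open Pool.Agent.UL

theorem EZR : EZR_stmt := by
  intro h y hh h4 hY hz h02 hne
  have he : ∀ t, t ≤ h + 2 → y t (2 * t + 1) = y (t + 1) (2 * (t + 1) + 1) := by
    intro t ht
    rw [hY t (by omega) (2 * t + 1) (by omega), hz (t + 1) (by omega) (2 * t + 1) (by omega),
      hz (t + 1) (by omega) (2 * t + 1 + 1) (by omega)]
    have e1 : 2 * t + 1 + 2 = 2 * (t + 1) + 1 := by ring
    rw [e1]
    cases y (t + 1) (2 * (t + 1) + 1) <;> rfl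
  have hp : ∀ t, t ≤ h + 2 → y t (2 * t + 2) =
      ex1 false (y (t + 1) (2 * (t + 1) + 1)) (y (t + 1) (2 * (t + 1) + 2)) := by
    intro t ht
    rw [hY t (by omega) (2 * t + 2) (by omega), hz (t + 1) (by omega) (2 * t + 2) (by omega)]
    have e1 : 2 * t + 2 + 1 = 2 * (t + 1) + 1 := by ring
    have e2 : 2 * t + 2 + 2 = 2 * (t + 1) + 2 := by ring
    rw [e1, e2]
  have he0 : ∀ t, t ≤ h + 3 → y t (2 * t + 1) = y 0 1 := by
    intro t
    induction t with
    | zero => intro _; rfl
    | succ n ih =>
      intro hn
      rw [← he n (by omega)]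
      exact ih (by omega)
  have main : y 0 1 = false := by
    by_contra hcon
    have h01 : y 0 1 = true := by
      cases hy : y 0 1
      · exact absurd hy hcon
      · rfl
    have hpt : ∀ t, t ≤ h + 3 → y t (2 * t + 2) = decide (t % 2 = 1) := by
      intro t
      induction t with
      | zero =>
        intro _
        rw [h02]
        rfl
      | succ n ih =>
        intro hn
        have h1 := ih (by omega)
        rw [hp n (by omega), he0 (n + 1) hn, h01] at h1
        rcases Nat.mod_two_eq_zero_or_one n with hm | hm
        · have h2 : (n + 1) % 2 = 1 := by omega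
          rw [hm] at h1
          rw [h2]
          revert h1
          cases y (n + 1) (2 * (n + 1) + 2) <;> simp [ex1]
        · have h2 : (n + 1) % 2 = 0 := by omega
          rw [hm] at h1
          rw [h2]
          revert h1
          cases y (n + 1) (2 * (n + 1) + 2) <;> simp [ex1]
    apply hne
    constructor
    · have := he0 (h + 3) le_rfl
      rw [h01] at this
      have e2 : 2 * (h + 3) + 1 = 2 * h + 7 := by ring
      rwa [e2] at this
    · have := hpt (h + 3) le_rfl
      have e2 : 2 * (h + 3) + 2 = 2 * h + 8 := by ring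
      have e3 : (h + 3) % 2 = 1 := by omega
      rw [e2, e3] at this
      simpa using this
  refine ⟨main, ?_⟩
  have := he0 1 (by omega)
  rw [main] at this
  exact this

end Pool.Agent.U4
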